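import Pool.Agent.Y476.NA.Stm

/-! From slaloms to null sets in the plane (step N2 of project NA of helper476). -/

set_option autoImplicit false

namespace Pool.Agent.Y337.NA

open MeasureTheory Filter Set
open scoped Pointwise ENNReal
open Pool.Agent.Y476.NA

lemma card_Icc_le (x y : ℝ) (hxy : x ≤ y) :
    ((Finset.Icc ⌈x⌉ ⌊y⌋).card : ℝ) ≤ y - x + 1 := by
  rw [Int.card_Icc]
  have h1 : (((⌊y⌋ + 1 - ⌈x⌉).toNat : ℕ) : ℤ) = max (⌊y⌋ + 1 - ⌈x⌉) 0 := Int.toNat_eq_max _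
  have h2 : (((⌊y⌋ + 1 - ⌈x⌉).toNat : ℕ) : ℝ) = max ((⌊y⌋ : ℝ) + 1 - ⌈x⌉) 0 := by
    have h3 := congrArg (fun n : ℤ => (n : ℝ)) h1
    push_cast at h3
    exact h3
  rw [h2]
  apply max_le
  · have h4 := Int.floor_le y
    have h5 := Int.le_ceil x
    linarith
  · linarith

lemma strip (t R r : ℝ) (D : ℕ) (hD : 0 < D) (hR : 0 ≤ R) (hr : 0 ≤ r) :
    volume {a : ℝ | |a| ≤ R ∧ ∃ u : ℤ, |a - (t + (u : ℝ) / D)| ≤ 2 * r} ≤
      ENNReal.ofReal ((2 * R + 4 * r + 1) * D * (4 * r)) := by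
  have hD0 : (0 : ℝ) < D := Nat.cast_pos.2 hD
  have hD1 : (1 : ℝ) ≤ D := by exact_mod_cast hD
  let I := Finset.Icc ⌈(-R - 2 * r - t) * D⌉ ⌊(R + 2 * r - t) * D⌋
  have hsub : {a : ℝ | |a| ≤ R ∧ ∃ u : ℤ, |a - (t + (u : ℝ) / D)| ≤ 2 * r} ⊆
      ⋃ u ∈ I, Metric.closedBall (t + (u : ℝ) / D) (2 * r) := by
    rintro a ⟨ha, u, hu⟩
    rw [mem_iUnion₂]
    refine ⟨u, ?_, ?_⟩
    · rw [Finset.mem_Icc, Int.ceil_le, Int.le_floor]
      rw [abs_le] at ha hu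
      have h1 : (u : ℝ) = (u : ℝ) / D * D := by field_simp
      constructor
      · rw [h1]
        apply mul_le_mul_of_nonneg_right _ hD0.le
        linarith
      · rw [h1]
        apply mul_le_mul_of_nonneg_right _ hD0.le
        linarith
    · rw [Metric.mem_closedBall, Real.dist_eq]
      exact hu
  have hcard : (I.card : ℝ) ≤ (2 * R + 4 * r) * D + 1 := by
    have h1 := card_Icc_le ((-R - 2 * r - t) * D) ((R + 2 * r - t) * D) (by
      apply mul_le_mul_of_nonneg_right _ hD0.le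
      linarith)
    have h2 : (R + 2 * r - t) * D - (-R - 2 * r - t) * D + 1 = (2 * R + 4 * r) * D + 1 := by ring
    rw [← h2]
    exact h1
  calc volume {a : ℝ | |a| ≤ R ∧ ∃ u : ℤ, |a - (t + (u : ℝ) / D)| ≤ 2 * r}
      ≤ volume (⋃ u ∈ I, Metric.closedBall (t + (u : ℝ) / D) (2 * r)) := measure_mono hsub
    _ ≤ ∑ u ∈ I, volume (Metric.closedBall (t + (u : ℝ) / D) (2 * r)) :=
        measure_biUnion_finset_le _ _
    _ = (I.card : ℝ≥0∞) * ENNReal.ofReal (2 * (2 * r)) := by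
        simp only [Real.volume_closedBall, Finset.sum_const, nsmul_eq_mul]
    _ ≤ ENNReal.ofReal ((2 * R + 4 * r + 1) * D * (4 * r)) := by
        rw [← ENNReal.ofReal_natCast, ← ENNReal.ofReal_mul (by positivity)]
        apply ENNReal.ofReal_le_ofReal
        have h3 : 2 * (2 * r) = 4 * r := by ring
        rw [h3]
        apply mul_le_mul_of_nonneg_right _ (by positivity)
        nlinarith

/-- the finite sets of the double slalom -/
noncomputable def W (D : ℕ → ℕ) (S : ℕ → Finset ℝ) (k : ℕ) : Finset ℝ :=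
  (S k ×ˢ S (k + 1)).biUnion fun p =>
    (Finset.Icc ⌈-2 - (p.2 - p.1) * D (k + 1)⌉ ⌊2 - (p.2 - p.1) * D (k + 1)⌋).image
      fun v : ℤ => p.2 + (v : ℝ) / D (k + 1)

lemma W_card (D : ℕ → ℕ) (S : ℕ → Finset ℝ) (k : ℕ) :
    (W D S k).card ≤ (S k).card * (S (k + 1)).card * 5 := by
  rw [← Finset.card_product]
  apply Finset.card_biUnion_le_card_mul
  intro p _
  refine Finset.card_image_le.trans ?_
  have h1 := card_Icc_le (-2 - (p.2 - p.1) * D (k + 1)) (2 - (p.2 - p.1) * D (k + 1)) (by linarith)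
  have h2 : ((Finset.Icc ⌈-2 - (p.2 - p.1) * (D (k + 1) : ℝ)⌉
      ⌊2 - (p.2 - p.1) * (D (k + 1) : ℝ)⌋).card : ℝ) ≤ (5 : ℕ) := by
    refine h1.trans ?_
    push_cast
    linarith
  exact_mod_cast h2

lemma dbl (D : ℕ → ℕ) (hD : ∀ k, 0 < D k) (hdvd : ∀ k, D k ∣ D (k + 1)) (S : ℕ → Finset ℝ)
    (x : ℝ) (k : ℕ) (h : ∃ s ∈ S k, ∃ i : ℤ, |x - s - (i : ℝ) / (D k : ℝ)| ≤ 1 / (D (k + 1) : ℝ))
    (h' : ∃ s ∈ S (k + 1), ∃ i : ℤ,
      |x - s - (i : ℝ) / (D (k + 1) : ℝ)| ≤ 1 / (D (k + 1 + 1) : ℝ)) :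
    ∃ w ∈ W D S k, ∃ u : ℤ, |x - w - (u : ℝ) / (D k : ℝ)| ≤ 1 / (D (k + 2) : ℝ) := by
  obtain ⟨s, hs, i, hi⟩ := h
  obtain ⟨s', hs', i', hi'⟩ := h'
  obtain ⟨q, hq⟩ := hdvd k
  have h0 : (0 : ℝ) < D k := Nat.cast_pos.2 (hD k)
  have h1 : (0 : ℝ) < D (k + 1) := Nat.cast_pos.2 (hD _)
  have h2 : (0 : ℝ) < D (k + 1 + 1) := Nat.cast_pos.2 (hD _)
  have h12 : (D (k + 1) : ℝ) ≤ D (k + 1 + 1) := by
    exact_mod_cast Nat.le_of_dvd (hD _) (hdvd _)
  have hqr : (D (k + 1) : ℝ) = D k * q := by rw [hq]; push_cast; ring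
  have hq0 : (q : ℝ) ≠ 0 := by
    rintro h
    rw [h, mul_zero] at hqr
    exact h1.ne' hqr
  have key : ((i' - i * q : ℤ) : ℝ) / D (k + 1) + (i : ℝ) / D k = (i' : ℝ) / D (k + 1) := by
    rw [hqr]
    push_cast
    field_simp
    ring
  refine ⟨s' + ((i' - i * q : ℤ) : ℝ) / D (k + 1), ?_, i, ?_⟩
  · refine Finset.mem_biUnion.2 ⟨(s, s'), Finset.mem_product.2 ⟨hs, hs'⟩,
      Finset.mem_image.2 ⟨i' - i * q, ?_, rfl⟩⟩
    rw [Finset.mem_Icc, Int.ceil_le, Int.le_floor]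
    have h3 : ((i' - i * q : ℤ) : ℝ) + (s' - s) * D (k + 1) =
        D (k + 1) * ((x - s - (i : ℝ) / D k) - (x - s' - (i' : ℝ) / D (k + 1))) := by
      rw [← key]
      field_simp
      ring
    have h4 : |(x - s - (i : ℝ) / D k) - (x - s' - (i' : ℝ) / D (k + 1))| ≤
        2 / (D (k + 1) : ℝ) := by
      refine (abs_sub _ _).trans ?_
      have h5 : 1 / (D (k + 1 + 1) : ℝ) ≤ 1 / (D (k + 1) : ℝ) :=
        one_div_le_one_div_of_le h1 h12
      have h6 : 2 / (D (k + 1) : ℝ) = 1 / (D (k + 1) : ℝ) + 1 / (D (k + 1) : ℝ) := by ring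
      rw [h6]
      exact add_le_add hi (hi'.trans h5)
    have h7 : |((i' - i * q : ℤ) : ℝ) + (s' - s) * D (k + 1)| ≤ 2 := by
      rw [h3, abs_mul, abs_of_pos h1]
      calc (D (k + 1) : ℝ) * |(x - s - (i : ℝ) / D k) - (x - s' - (i' : ℝ) / D (k + 1))|
          ≤ D (k + 1) * (2 / (D (k + 1) : ℝ)) := mul_le_mul_of_nonneg_left h4 h1.le
        _ = 2 := by field_simp
    rw [abs_le] at h7
    constructor
    · linarith [h7.1]
    · linarith [h7.2]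
  · have h8 : x - (s' + ((i' - i * q : ℤ) : ℝ) / D (k + 1)) - (i : ℝ) / D k =
        x - s' - (i' : ℝ) / D (k + 1) := by
      rw [← key]; ring
    rw [h8]
    exact hi'

theorem t : S_N2 := by
  intro K c r hr hsum
  obtain ⟨M, hM⟩ := hsum.tendsto_atTop_zero.bddAbove_range
  obtain ⟨ρ, hρ⟩ : ∃ ρ : ℝ, ρ = M + 1 := ⟨_, rfl⟩
  have hrρ : ∀ j, r j ≤ ρ := by
    intro j
    have h1 : r j ^ 2 ≤ M := hM ⟨j, rfl⟩
    rw [hρ]
    nlinarith [sq_nonneg (r j - 1 / 2)]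
  have hρ0 : 0 ≤ ρ := (hr 0).le.trans (hrρ 0)
  let C : ℕ → ℝ := fun k => 25 * (1 + (K k : ℝ)) ^ 2 * (1 + (K (k + 1) : ℝ)) ^ 2 * 2 ^ k
  have hC : ∀ k, 0 < C k := fun k => by positivity
  have hex : ∀ k d : ℕ, ∃ i : ℕ, k ≤ i ∧
      ∑' j, r (j + i) ^ 2 ≤ 1 / (C k * ((d : ℝ) + 1) ^ 2) := by
    intro k d
    have h1 : Tendsto (fun i => ∑' j, r (j + i) ^ 2) atTop (nhds 0) :=
      tendsto_sum_nat_add fun j => r j ^ 2
    have h2 : (0 : ℝ) < 1 / (C k * ((d : ℝ) + 1) ^ 2) := by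
      have := hC k
      positivity
    obtain ⟨i, hi1, hi2⟩ := ((h1.eventually (gt_mem_nhds h2)).and (eventually_ge_atTop k)).exists
    exact ⟨i, hi2, hi1.le⟩
  choose ix hix1 hix2 using hex
  refine ⟨fun k d => ∑ j ∈ Finset.range (ix k d), ⌈1 / r j⌉₊, ?_⟩
  intro D hD hdvd hG X Y S S' hS hS' hX hY
  have hrD : ∀ k j, j < ix k (D k) → 1 / (D (k + 1) : ℝ) ≤ r j := by
    intro k j hj
    have h1 : ⌈1 / r j⌉₊ ≤ D (k + 1) :=
      (Finset.single_le_sum (f := fun j => ⌈1 / r j⌉₊) (fun _ _ => Nat.zero_le _)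
        (Finset.mem_range.2 hj)).trans (hG k)
    have h2 : 1 / r j ≤ D (k + 1) := (Nat.le_ceil _).trans (by exact_mod_cast h1)
    have h3 : (0 : ℝ) < D (k + 1) := Nat.cast_pos.2 (hD _)
    rw [div_le_iff₀ h3]
    rw [div_le_iff₀ (hr j)] at h2
    linarith
  let ik : ℕ → ℕ := fun k => ix k (D k)
  let E : ℕ → Set (ℝ × ℝ) := fun k => {p | ∃ j, ∃ s ∈ W D S k, ∃ s' ∈ W D S' k,
    (∃ u : ℤ, |p.1 - ((s + (c (j + ik k)).1) + (u : ℝ) / D k)| ≤ 2 * r (j + ik k)) ∧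
    (∃ u : ℤ, |p.2 - ((s' + (c (j + ik k)).2) + (u : ℝ) / D k)| ≤ 2 * r (j + ik k))}
  have hbound : ∀ (R : ℕ) (k : ℕ), volume {p : ℝ × ℝ | p ∈ E k ∧ |p.1| ≤ R ∧ |p.2| ≤ R} ≤
      ENNReal.ofReal (16 * (2 * R + 4 * ρ + 1) ^ 2 * (1 / 2) ^ k) := by
    intro R k
    have hR0 : (0 : ℝ) ≤ R := Nat.cast_nonneg R
    let B1 : ℕ → ℝ → Set ℝ := fun j s => {a : ℝ | |a| ≤ R ∧
      ∃ u : ℤ, |a - ((s + (c (j + ik k)).1) + (u : ℝ) / D k)| ≤ 2 * r (j + ik k)}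
    let B2 : ℕ → ℝ → Set ℝ := fun j s => {a : ℝ | |a| ≤ R ∧
      ∃ u : ℤ, |a - ((s + (c (j + ik k)).2) + (u : ℝ) / D k)| ≤ 2 * r (j + ik k)}
    let m : ℕ → ℝ := fun j => (2 * R + 4 * ρ + 1) * D k * (4 * r (j + ik k))
    have hm : ∀ j, 0 ≤ m j := fun j => by
      have := (hr (j + ik k)).le
      positivity
    have hle : ∀ j, (2 * (R : ℝ) + 4 * r (j + ik k) + 1) * D k * (4 * r (j + ik k)) ≤ m j := by
      intro j
      have h1 := (hr (j + ik k)).le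
      have h2 := hrρ (j + ik k)
      have h3 : (0 : ℝ) ≤ D k := Nat.cast_nonneg _
      apply mul_le_mul_of_nonneg_right _ (by positivity)
      apply mul_le_mul_of_nonneg_right _ h3
      linarith
    have hB1 : ∀ j s, volume (B1 j s) ≤ ENNReal.ofReal (m j) := fun j s =>
      (strip _ R _ (D k) (hD k) hR0 (hr _).le).trans (ENNReal.ofReal_le_ofReal (hle j))
    have hB2 : ∀ j s, volume (B2 j s) ≤ ENNReal.ofReal (m j) := fun j s =>
      (strip _ R _ (D k) (hD k) hR0 (hr _).le).trans (ENNReal.ofReal_le_ofReal (hle j))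
    have hsub : {p : ℝ × ℝ | p ∈ E k ∧ |p.1| ≤ R ∧ |p.2| ≤ R} ⊆
        ⋃ j : ℕ, ⋃ w ∈ (W D S k ×ˢ W D S' k : Finset (ℝ × ℝ)), (B1 j w.1) ×ˢ (B2 j w.2) := by
      rintro p ⟨⟨j, s, hs, s', hs', hu, hu'⟩, h1, h2⟩
      refine mem_iUnion.2 ⟨j, mem_iUnion₂.2 ⟨(s, s'), Finset.mem_product.2 ⟨hs, hs'⟩, ?_⟩⟩
      exact ⟨⟨h1, hu⟩, ⟨h2, hu'⟩⟩
    have hN : (((W D S k ×ˢ W D S' k : Finset (ℝ × ℝ)).card : ℕ) : ℝ) ≤
        25 * (1 + (K k : ℝ)) ^ 2 * (1 + (K (k + 1) : ℝ)) ^ 2 := by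
      have h1 : (W D S k).card ≤ (1 + K k) * (1 + K (k + 1)) * 5 :=
        (W_card D S k).trans (Nat.mul_le_mul_right _ (Nat.mul_le_mul
          ((hS k).trans (Nat.le_add_left _ _)) ((hS (k + 1)).trans (Nat.le_add_left _ _))))
      have h2 : (W D S' k).card ≤ (1 + K k) * (1 + K (k + 1)) * 5 :=
        (W_card D S' k).trans (Nat.mul_le_mul_right _ (Nat.mul_le_mul
          ((hS' k).trans (Nat.le_add_left _ _)) ((hS' (k + 1)).trans (Nat.le_add_left _ _))))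
      have h3 : (W D S k ×ˢ W D S' k : Finset (ℝ × ℝ)).card ≤
          ((1 + K k) * (1 + K (k + 1)) * 5) * ((1 + K k) * (1 + K (k + 1)) * 5) := by
        rw [Finset.card_product]
        exact Nat.mul_le_mul h1 h2
      have h4 : (((W D S k ×ˢ W D S' k : Finset (ℝ × ℝ)).card : ℕ) : ℝ) ≤
          ((((1 + K k) * (1 + K (k + 1)) * 5) * ((1 + K k) * (1 + K (k + 1)) * 5) : ℕ) : ℝ) := by
        exact_mod_cast h3
      refine h4.trans (le_of_eq ?_)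
      push_cast
      ring
    obtain ⟨n, hn⟩ : ∃ n : ℝ, n = (((W D S k ×ˢ W D S' k : Finset (ℝ × ℝ)).card : ℕ) : ℝ) :=
      ⟨_, rfl⟩
    have hn0 : 0 ≤ n := by rw [hn]; exact Nat.cast_nonneg _
    have hsum' : Summable fun j => r (j + ik k) ^ 2 := (summable_nat_add_iff (ik k)).2 hsum
    have hmsq : ∀ j, n * (m j * m j) =
        n * (16 * (2 * R + 4 * ρ + 1) ^ 2 * (D k : ℝ) ^ 2) * r (j + ik k) ^ 2 := fun j => by
      simp only [m]
      ring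
    calc volume {p : ℝ × ℝ | p ∈ E k ∧ |p.1| ≤ R ∧ |p.2| ≤ R}
        ≤ volume (⋃ j : ℕ, ⋃ w ∈ (W D S k ×ˢ W D S' k : Finset (ℝ × ℝ)),
            (B1 j w.1) ×ˢ (B2 j w.2)) := measure_mono hsub
      _ ≤ ∑' j : ℕ, volume (⋃ w ∈ (W D S k ×ˢ W D S' k : Finset (ℝ × ℝ)),
            (B1 j w.1) ×ˢ (B2 j w.2)) := measure_iUnion_le _
      _ ≤ ∑' j : ℕ, ENNReal.ofReal (n * (m j * m j)) := by
          refine ENNReal.tsum_le_tsum fun j => ?_
          calc volume (⋃ w ∈ (W D S k ×ˢ W D S' k : Finset (ℝ × ℝ)), (B1 j w.1) ×ˢ (B2 j w.2))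
              ≤ ∑ w ∈ (W D S k ×ˢ W D S' k : Finset (ℝ × ℝ)),
                  volume ((B1 j w.1) ×ˢ (B2 j w.2)) := measure_biUnion_finset_le _ _
            _ ≤ ∑ _w ∈ (W D S k ×ˢ W D S' k : Finset (ℝ × ℝ)),
                  ENNReal.ofReal (m j) * ENNReal.ofReal (m j) := by
                refine Finset.sum_le_sum fun w _ => ?_
                rw [Measure.volume_eq_prod, Measure.prod_prod]
                exact mul_le_mul' (hB1 j w.1) (hB2 j w.2)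
            _ = ENNReal.ofReal (n * (m j * m j)) := by
                rw [Finset.sum_const, nsmul_eq_mul, ENNReal.ofReal_mul hn0,
                  ENNReal.ofReal_mul (hm j), hn, ENNReal.ofReal_natCast]
      _ = ENNReal.ofReal (∑' j : ℕ, n * (m j * m j)) := by
          rw [ENNReal.ofReal_tsum_of_nonneg (fun j => mul_nonneg hn0 (mul_nonneg (hm j) (hm j)))]
          simp_rw [hmsq]
          exact hsum'.mul_left _
      _ ≤ ENNReal.ofReal (16 * (2 * R + 4 * ρ + 1) ^ 2 * (1 / 2) ^ k) := by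
          apply ENNReal.ofReal_le_ofReal
          simp_rw [hmsq]
          rw [tsum_mul_left]
          have h1 := hix2 k (D k)
          have h2 : ∑' j, r (j + ik k) ^ 2 ≤ 1 / (C k * ((D k : ℝ) + 1) ^ 2) := h1
          have h3 : 0 ≤ n * (16 * (2 * R + 4 * ρ + 1) ^ 2 * (D k : ℝ) ^ 2) := by positivity
          refine (mul_le_mul_of_nonneg_left h2 h3).trans ?_
          have hC' := hC k
          have hDk : (0 : ℝ) ≤ D k := Nat.cast_nonneg _
          have h4 : n * 2 ^ k ≤ C k := by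
            rw [hn]
            exact mul_le_mul_of_nonneg_right hN (by positivity)
          have h5 : (D k : ℝ) ^ 2 ≤ ((D k : ℝ) + 1) ^ 2 := by nlinarith
          rw [mul_one_div, div_le_iff₀ (by positivity)]
          have h6 : 16 * (2 * (R : ℝ) + 4 * ρ + 1) ^ 2 * (1 / 2) ^ k *
              (C k * ((D k : ℝ) + 1) ^ 2) =
              16 * (2 * (R : ℝ) + 4 * ρ + 1) ^ 2 * ((C k * (1 / 2) ^ k) * ((D k : ℝ) + 1) ^ 2) := by
            ring
          have h7 : n * (16 * (2 * (R : ℝ) + 4 * ρ + 1) ^ 2 * (D k : ℝ) ^ 2) =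
              16 * (2 * (R : ℝ) + 4 * ρ + 1) ^ 2 * (n * (D k : ℝ) ^ 2) := by ring
          rw [h6, h7]
          apply mul_le_mul_of_nonneg_left _ (by positivity)
          apply mul_le_mul _ h5 (by positivity) (by positivity)
          have h8 : n = n * 2 ^ k * (1 / 2) ^ k := by
            rw [mul_assoc, ← mul_pow]
            norm_num
          rw [h8]
          exact mul_le_mul_of_nonneg_right h4 (by positivity)
  have hnull : ∀ R : ℕ, volume {p : ℝ × ℝ | ∃ᶠ k in atTop, p ∈ E k ∧ |p.1| ≤ R ∧ |p.2| ≤ R} = 0 := by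
    intro R
    apply measure_setOf_frequently_eq_zero
    refine ne_top_of_le_ne_top ?_ (ENNReal.tsum_le_tsum (hbound R))
    have h1 : Summable fun k : ℕ => 16 * (2 * (R : ℝ) + 4 * ρ + 1) ^ 2 * (1 / 2) ^ k :=
      (summable_geometric_of_lt_one (by norm_num) (by norm_num)).mul_left _
    rw [← ENNReal.ofReal_tsum_of_nonneg (fun k => by positivity) h1]
    exact ENNReal.ofReal_ne_top
  refine measure_mono_null ?_ (measure_iUnion_null hnull)
  rintro p hp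
  obtain ⟨⟨x, y⟩, ⟨hx, hy⟩, z, hz, rfl⟩ := Set.mem_add.1 hp
  obtain ⟨R, hR⟩ := exists_nat_ge (max |((x, y) + z).1| |((x, y) + z).2|)
  refine mem_iUnion.2 ⟨R, ?_⟩
  obtain ⟨k₁, hk₁⟩ := eventually_atTop.1 (hX x hx)
  obtain ⟨k₂, hk₂⟩ := eventually_atTop.1 (hY y hy)
  rw [mem_setOf_eq, frequently_atTop]
  intro k₃
  obtain ⟨k₀, hk₀⟩ : ∃ k₀, k₀ = max k₃ (max k₁ k₂) := ⟨_, rfl⟩
  obtain ⟨j, hj, hjz⟩ := (frequently_atTop.1 hz) (ik k₀)
  have hfg := Nat.findGreatest_spec (P := fun k => ik k ≤ j) (m := k₀) (n := j)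
    ((hix1 k₀ (D k₀)).trans hj) hj
  obtain ⟨k, hk⟩ : ∃ k, k = Nat.findGreatest (fun k => ik k ≤ j) j := ⟨_, rfl⟩
  have hkk : k₀ ≤ k := by
    rw [hk]
    exact Nat.le_findGreatest ((hix1 k₀ (D k₀)).trans hj) hj
  have hk1 : ik k ≤ j := by rw [hk]; exact hfg
  have hk2 : j < ik (k + 1) := by
    by_contra hcon
    push Not at hcon
    have h1 : k + 1 ≤ Nat.findGreatest (fun k => ik k ≤ j) j :=
      Nat.le_findGreatest ((hix1 (k + 1) (D (k + 1))).trans hcon) hcon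
    omega
  have hrj := hrD (k + 1) j hk2
  obtain ⟨w, hw, u, hu⟩ := dbl D hD hdvd S x k (hk₁ k (by omega)) (hk₁ (k + 1) (by omega))
  obtain ⟨w', hw', u', hu'⟩ := dbl D hD hdvd S' y k (hk₂ k (by omega)) (hk₂ (k + 1) (by omega))
  refine ⟨k, by omega, ⟨j - ik k, w, hw, w', hw', ⟨u, ?_⟩, ⟨u', ?_⟩⟩,
    (le_max_left _ _).trans hR, (le_max_right _ _).trans hR⟩
  · rw [Nat.sub_add_cancel hk1]
    have h1 : |z.1 - (c j).1| ≤ r j := by
      rw [← Real.dist_eq]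
      exact (le_max_left _ _).trans hjz
    have h2 : ((x, y) + z).1 - (w + (c j).1 + (u : ℝ) / D k) =
        (x - w - (u : ℝ) / D k) + (z.1 - (c j).1) := by
      simp only [Prod.fst_add]
      ring
    rw [h2]
    refine (abs_add_le _ _).trans ?_
    have h3 := hu.trans hrj
    linarith
  · rw [Nat.sub_add_cancel hk1]
    have h1 : |z.2 - (c j).2| ≤ r j := by
      rw [← Real.dist_eq]
      exact (le_max_right _ _).trans hjz
    have h2 : ((x, y) + z).2 - (w' + (c j).2 + (u' : ℝ) / D k) =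
        (y - w' - (u' : ℝ) / D k) + (z.2 - (c j).2) := by
      simp only [Prod.snd_add]
      ring
    rw [h2]
    refine (abs_add_le _ _).trans ?_
    have h3 := hu'.trans hrj
    linarith

end Pool.Agent.Y337.NA
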